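import Pool.Agent.helper20.TAT.Toric

/-!
# Threshold polytopes in a toric setting, with a constant, for all `a` at once
-/

noncomputable section

namespace Pool.Agent.helper20.TAU

open Finset Pool.Agent.helper22.ARR
open Pool.Agent.helper22.ACC (Sm sm_wqo)
open Pool.Agent.helper20.ALC (coreD)
open Pool.Agent.helper20.TAT

variable {ι : Type} [Fintype ι] {m : ℕ}

theorem toricE {Γ : Set ℝ} {C : ℝ} (hΓ : ∀ x ∈ Γ, 0 ≤ x) (hC : 0 < C)
    (hdcc : ¬ ∃ f : ℕ → ℝ, StrictAnti f ∧ ∀ k, f k ∈ Γ) (t : ℕ → Data ι m)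
    (ht : ∀ k, CoefC Γ C (t k)) :
    ∃ k, ∀ a : ℝ, 0 ≤ a → ∀ s : Fin m → ℝ, (∀ l, k < l → s ∈ thr a (t l)) →
      s ∈ thr a (t k) := by
  classical
  by_contra hcon
  push Not at hcon
  choose a ha s hs hsk using hcon
  have hred : ∀ k, ∃ d : ℕ, d < Fintype.card ι + 1 ∧
      ∃ (T : Fin d → Fin (t k).p) (l : Fin d → ℝ),
      (∀ i, 0 < l i) ∧ l ∈ latt (t k).v T ∧ pt (t k).v T l ∈ rint (t k).v ∧
      LinearIndependent ℝ (fun i => toReal ((t k).v (T i))) ∧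
      FF C (t k) T (s k) l < a k := by
    intro k
    have h1 : ¬ ∀ z : ι → ℤ, toReal z ∈ rint (t k).v →
        a k ≤ logDisc (t k).toGenPair (toReal z) - ∑ j, s k j * order (t k) j (toReal z) :=
      fun h => hsk k ⟨(hs k (k + 1) (Nat.lt_succ_self k)).1, h⟩
    push Not at h1
    obtain ⟨z, hz, hzx⟩ := h1
    exact reduceD (ht k) hz hzx
  choose dd hdd hP using hred
  -- constant dimension
  obtain ⟨d, hd⟩ := Finite.exists_infinite_fiber
    (fun k => (⟨dd k, hdd k⟩ : Fin (Fintype.card ι + 1)))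
  have hd' : {k | dd k = (d : ℕ)}.Infinite := by
    have h1 := Set.infinite_coe_iff.1 hd
    refine h1.mono ?_
    intro k hk
    exact congrArg Fin.val hk
  obtain ⟨ψ, hψ, hψd⟩ := Filter.extraction_of_frequently_atTop
    (Nat.frequently_atTop_iff_infinite.2 hd')
  have hP' : ∀ k, ∃ (T : Fin (d : ℕ) → Fin (t (ψ k)).p) (l : Fin (d : ℕ) → ℝ),
      (∀ i, 0 < l i) ∧ l ∈ latt (t (ψ k)).v T ∧
      pt (t (ψ k)).v T l ∈ rint (t (ψ k)).v ∧
      LinearIndependent ℝ (fun i => toReal ((t (ψ k)).v (T i))) ∧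
      FF C (t (ψ k)) T (s (ψ k)) l < a (ψ k) := by
    intro k
    have h1 := hP (ψ k)
    rw [hψd k] at h1
    exact h1
  choose T l hl hlL hint hli hlt using hP'
  -- monotone subsequences
  have hWF : Γ.IsPWO := by
    rw [Set.isPWO_iff_isWF, Set.isWF_iff_no_descending_seq]
    intro f hf hmem
    exact hdcc ⟨f, hf, hmem⟩
  have hcl := hWF.addSubmonoid_closure hΓ
  have hb : (Set.univ.pi fun _ : Fin (d : ℕ) => (AddSubmonoid.closure Γ : Set ℝ)).IsPWO :=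
    Set.IsPWO.pi fun _ => hcl
  have hc : (Set.univ.pi fun _ : Fin m => Set.univ.pi fun _ : Fin (d : ℕ) =>
      (AddSubmonoid.closure Γ : Set ℝ)).IsPWO := Set.IsPWO.pi fun _ => hb
  have hR : {x : ℝ × Set (Fin (d : ℕ) → ℕ) | x.1 ∈ Γ}.PartiallyWellOrderedOn Ri := by
    have h1 := Set.PartiallyWellOrderedOn.prod (r := (· ≤ ·)) (r' := Sm (d := (d : ℕ))) hWF
      (Set.partiallyWellOrderedOn_of_wellQuasiOrdered sm_wqo Set.univ)
    refine h1.mono ?_
    intro x hx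
    exact ⟨hx, Set.mem_univ _⟩
  have hI := Set.PartiallyWellOrderedOn.partiallyWellOrderedOn_sublistForall₂ Ri hR
  have hpre : IsPreorder (List (ℝ × Set (Fin (d : ℕ) → ℕ))) (List.SublistForall₂ Ri) :=
    { refl := fun x => refl_of (List.SublistForall₂ Ri) x
      trans := fun x y z h1 h2 => trans_of (List.SublistForall₂ Ri) h1 h2 }
  have hJ := Set.PartiallyWellOrderedOn.pi (ι := Fin m)
    (r := fun _ => List.SublistForall₂ (Ri (d := (d : ℕ)))) (fun _ => hI)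
  have hpre2 : IsPreorder (Fin m → List (ℝ × Set (Fin (d : ℕ) → ℕ)))
      (fun a b => ∀ i, List.SublistForall₂ Ri (a i) (b i)) :=
    { refl := fun x i => refl_of (List.SublistForall₂ Ri) (x i)
      trans := fun x y z h1 h2 i => trans_of (List.SublistForall₂ Ri) (h1 i) (h2 i) }
  obtain ⟨g1, hg1⟩ := hb.exists_monotone_subseq
    (f := fun k i => C - logDisc (t (ψ k)).toGenPair (toReal ((t (ψ k)).v (T k i)))) (by
    intro k i _
    exact (ht (ψ k)).boundary (T k i))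
  obtain ⟨g2, hg2⟩ := hc.exists_monotone_subseq
    (f := fun k j i => order (t (ψ (g1 k))) j (toReal ((t (ψ (g1 k))).v (T (g1 k) i)))) (by
    intro k j _ i _
    exact (ht (ψ (g1 k))).divisors j (T (g1 k) i))
  obtain ⟨g3, hg3⟩ := hI.exists_monotone_subseq
    (f := fun k => (t (ψ (g1 (g2 k)))).parts.map
      (tr (t (ψ (g1 (g2 k)))).toGenPair (T (g1 (g2 k))))) (by
    intro k x hx
    obtain ⟨y, hy, rfl⟩ := List.mem_map.1 hx
    exact ((ht (ψ (g1 (g2 k)))).parts y hy).1)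
  obtain ⟨g4, hg4⟩ := hJ.exists_monotone_subseq
    (f := fun k j => ((t (ψ (g1 (g2 (g3 k))))).dparts j).map
      (tr (t (ψ (g1 (g2 (g3 k))))).toGenPair (T (g1 (g2 (g3 k)))))) (by
    intro k j _ x hx
    obtain ⟨y, hy, rfl⟩ := List.mem_map.1 hx
    exact ((ht (ψ (g1 (g2 (g3 k))))).dparts j y hy).1)
  set θ : ℕ → ℕ := fun k => g1 (g2 (g3 (g4 k))) with hθ
  have hθm : StrictMono θ :=
    g1.strictMono.comp (g2.strictMono.comp (g3.strictMono.comp g4.strictMono))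
  obtain ⟨k, hk⟩ := coreD (fun k => latt (t (ψ (θ k))).v (T (θ k)))
    (fun k => latt_isOver _ _ (hli (θ k))) (fun k => l (θ k)) (fun k => hlL (θ k))
  have hlt' := hlt (θ k)
  have hlk := hl (θ k)
  set w := l (θ k) with hw
  set A := FF C (t (ψ (θ k))) (T (θ k)) (s (ψ (θ k))) w with hA
  set a₀ := a (ψ (θ k)) with ha₀
  obtain ⟨ε, hε0, hε⟩ : ∃ ε : ℝ, 0 < ε ∧ A + C * ε < a₀ := by
    refine ⟨(a₀ - A) / (2 * C), div_pos (by linarith) (by linarith), ?_⟩
    have e : C * ((a₀ - A) / (2 * C)) = (a₀ - A) / 2 := by field_simp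
    rw [e]
    linarith
  -- constants
  have hσ0 : 0 ≤ ∑ i, w i := Finset.sum_nonneg fun i _ => (hlk i).le
  obtain ⟨τ, hτ0, hτ1, hτ2⟩ : ∃ τ : ℝ, 0 < τ ∧ τ < 1 ∧ τ * ∑ i, w i ≤ ε / 2 := by
    refine ⟨min (1 / 2) (ε / (2 * (∑ i, w i + 1))), lt_min (by norm_num) (by positivity),
      lt_of_le_of_lt (min_le_left _ _) (by norm_num), ?_⟩
    calc min (1 / 2) (ε / (2 * (∑ i, w i + 1))) * ∑ i, w i
        ≤ ε / (2 * (∑ i, w i + 1)) * ∑ i, w i :=
          mul_le_mul_of_nonneg_right (min_le_right _ _) hσ0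
      _ ≤ ε / (2 * (∑ i, w i + 1)) * (∑ i, w i + 1) := by
          apply mul_le_mul_of_nonneg_left (by linarith); positivity
      _ = ε / 2 := by field_simp
  obtain ⟨δ, hδ0, hδ1, hδ2⟩ : ∃ δ : ℝ, 0 < δ ∧ (∀ i, δ ≤ τ * w i) ∧ (d : ℕ) * δ ≤ ε / 2 := by
    have h1 : ∃ δ1 : ℝ, 0 < δ1 ∧ ∀ i, δ1 ≤ τ * w i := by
      rcases isEmpty_or_nonempty (Fin (d : ℕ)) with h | h
      · exact ⟨1, one_pos, fun i => (h.false i).elim⟩
      · obtain ⟨i0, hi0⟩ := Finite.exists_min (fun i => τ * w i)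
        exact ⟨τ * w i0, mul_pos hτ0 (hlk i0), hi0⟩
    obtain ⟨δ1, h10, h11⟩ := h1
    refine ⟨min δ1 (ε / (2 * ((d : ℕ) + 1))), lt_min h10 (by positivity),
      fun i => (min_le_left _ _).trans (h11 i), ?_⟩
    calc ((d : ℕ) : ℝ) * min δ1 (ε / (2 * ((d : ℕ) + 1)))
        ≤ ((d : ℕ) + 1) * (ε / (2 * ((d : ℕ) + 1))) := by
          apply mul_le_mul (by linarith) (min_le_right _ _) (le_min h10.le (by positivity))
            (by positivity)
      _ = ε / 2 := by field_simp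
  obtain ⟨r, hr, g, hgL, hg⟩ := hk δ hδ0 (k + 1)
  have hgpos : ∀ i, 0 < g i := by
    intro i
    have h1 := abs_lt.1 (hg i)
    have h2 := hδ1 i
    have h3 := hlk i
    nlinarith
  have hkr : ψ (θ k) < ψ (θ r) := hψ (hθm (by omega))
  have hmem : s (ψ (θ k)) ∈ thr a₀ (t (ψ (θ r))) := hs _ _ hkr
  have hgood : Good C (FF C (t (ψ (θ r))) (T (θ r)) (s (ψ (θ k)))) :=
    FF_good hΓ hC (ht _) (ha _) hmem (hint (θ r))
  have h4 := hgood.near hC.le hlk hτ0 hτ1 hδ1 hg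
  have hkr' : k ≤ r := by omega
  -- comparison at `w`
  have h5 : FF C (t (ψ (θ r))) (T (θ r)) (s (ψ (θ k))) w ≤ A := by
    rw [hA, FF, FF]
    have h6 := GG_mono (C := C) (hg1 (g2.monotone (g3.monotone (g4.monotone hkr'))))
      (parts_tr (t := (t (ψ (θ r))).toGenPair) hΓ (T (θ r)) (ht (ψ (θ r))).parts)
      (hg3 _ _ (g4.monotone hkr')) hlk
    have h7 : ∑ j, s (ψ (θ k)) j * OO (fun i => order (t (ψ (θ k))) j
        (toReal ((t (ψ (θ k))).v (T (θ k) i)))) (((t (ψ (θ k))).dparts j).map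
          (tr (t (ψ (θ k))).toGenPair (T (θ k)))) w ≤
        ∑ j, s (ψ (θ k)) j * OO (fun i => order (t (ψ (θ r))) j
        (toReal ((t (ψ (θ r))).v (T (θ r) i)))) (((t (ψ (θ r))).dparts j).map
          (tr (t (ψ (θ r))).toGenPair (T (θ r)))) w := by
      refine Finset.sum_le_sum fun j _ => ?_
      refine mul_le_mul_of_nonneg_left ?_ (hmem.1 j)
      exact OO_mono (hg2 (g3.monotone (g4.monotone hkr')) j)
        (parts_tr (t := (t (ψ (θ r))).toGenPair) hΓ (T (θ r)) ((ht (ψ (θ r))).dparts j))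
        (hg4 _ _ hkr' j) hlk
    change GG _ _ _ w - _ ≤ GG _ _ _ w - _
    exact sub_le_sub h6 h7
  obtain ⟨z, hgz⟩ := hgL
  have hzint : toReal z ∈ rint (t (ψ (θ r))).v := by
    rw [← hgz]
    exact pt_rint _ _ (hint (θ r)) hgpos
  have h8 := hmem.2 z hzint
  have h9 : FF C (t (ψ (θ r))) (T (θ r)) (s (ψ (θ k))) g =
      logDisc (t (ψ (θ r))).toGenPair (toReal z) -
        ∑ j, s (ψ (θ k)) j * order (t (ψ (θ r))) j (toReal z) := by
    rw [FF_eq (ht _) (T (θ r)) _ hgpos, hgz]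
  rw [← h9] at h8
  have h10 : C * (τ * ∑ i, w i + (d : ℕ) * δ) ≤ C * ε :=
    mul_le_mul_of_nonneg_left (by linarith) hC.le
  linarith

end Pool.Agent.helper20.TAU
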