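import Pool.Agent.helper20.TAU.RedA

/-!
# The ascending chain condition for minimal log discrepancies and `a`-lc threshold polytopes on
arrangement varieties
-/

noncomputable section

namespace Pool.Agent.helper20.TAU

open Finset Pool.Agent.helper22.ARR Pool.Agent.helper20.TAT

variable {m : ℕ}
variable {n r q c : ℕ} {Γ : Set ℝ} {t : Data (Fin n ⊕ Fin r) m}

/-- reduction to toric data of bounded dimension -/
theorem reduction (ht : HasCoeff c Γ t) (hΓ : ∀ x ∈ Γ, 0 ≤ x) {a₁ : ℝ} (ha₁ : 0 ≤ a₁)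
    {s₁ : Fin m → ℝ} (hs₁ : s₁ ∈ thresholds c a₁ t) {a : ℝ} {s₀ : Fin m → ℝ} (hs₀ : ∀ j, 0 ≤ s₀ j)
    (hs₀' : s₀ ∉ thresholds c a t) :
    ∃ q < 3 * c + 4, ∃ t' : Data (Fin n ⊕ Fin q) m, CoefC (insert 1 Γ) ((c : ℝ) + 1) t' ∧
      (∀ a' : ℝ, 0 ≤ a' → ∀ s ∈ thresholds c a' t, s ∈ thr a' t') ∧ s₀ ∉ thr a t' := by
  classical
  have hlc := isLC_of ht hΓ ha₁ hs₁
  have h1 : ¬ ∀ z : Fin n ⊕ Fin r → ℤ, Trop c z → toReal z ∈ interior (bigCone t.toGenPair) →
      a ≤ logDisc t.toGenPair (toReal z) - ∑ j, s₀ j * order t j (toReal z) :=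
    fun h => hs₀' ⟨hs₀, h⟩
  push Not at h1
  obtain ⟨z₀, hz, hz2, hzx⟩ := h1
  set I := univ.filter fun y => z₀ (Sum.inr y) ≠ 0 with hI
  have hIcard : I.card ≤ c := by
    have := hz.2
    convert this
  have hIm : ∀ y, y ∈ I ↔ z₀ (Sum.inr y) ≠ 0 := fun y => by simp [hI]
  by_cases hB : ∀ φ, Sel t.toGenPair φ → logDisc t.toGenPair (toReal (X0 t.toGenPair φ)) = 0
  · -- case B
    refine ⟨I.card, by omega, ?_⟩
    set e : Fin I.card → Fin r := fun k => (I.equivFin.symm k : Fin r) with he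
    have hinj : Function.Injective e := fun a b h => by
      simpa using Subtype.ext h
    have hrange : ∀ y, y ∈ Set.range e ↔ z₀ (Sum.inr y) ≠ 0 := by
      intro y
      constructor
      · rintro ⟨k, rfl⟩
        exact (hIm _).1 (I.equivFin.symm k).2
      · intro hy
        refine ⟨I.equivFin ⟨y, (hIm y).2 hy⟩, ?_⟩
        simp [he]
    exact redB ht hlc hB hinj hIcard hz hz2 (fun y hy => by
      by_contra hcon; exact hy ((hrange y).2 hcon)) (fun k => (hrange _).1 ⟨k, rfl⟩) hzx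
  · -- case A
    push Not at hB
    obtain ⟨φ, hφ, hne⟩ := hB
    have hpos : 0 < logDisc t.toGenPair (toReal (X0 t.toGenPair φ)) :=
      lt_of_le_of_ne (X0_nonneg hlc hφ) (Ne.symm hne)
    have hdeg : ∑ y, (1 - t.psi (Sum.inr y)) = c + 1 := by
      rcases ht.degree with h | h
      · exact h
      · exact absurd (X0_zero hlc hΓ h hφ) hne
    set W := univ.filter fun y => ∃ i, 2 ≤ t.v i (Sum.inr y) with hW
    have hWcard : W.card ≤ 2 * (c + 1) :=
      card_mult hlc hΓ hdeg (fun y hy => by simpa [hW] using hy)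
    set U := W ∪ I with hU
    have hUcard : U.card ≤ 3 * c + 2 := by
      have := Finset.card_union_le W I
      rw [← hU] at this
      omega
    set f : Fin r → Option (Fin r) := fun y => if y ∈ U then some y else none with hf
    set R := univ.image f with hR
    have hRcard : R.card ≤ 3 * c + 3 := by
      have h1 : R ⊆ insert none (U.image some) := by
        intro a ha
        rw [hR, Finset.mem_image] at ha
        obtain ⟨y, _, rfl⟩ := ha
        simp only [hf]
        split_ifs with h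
        · exact Finset.mem_insert_of_mem (Finset.mem_image_of_mem _ h)
        · exact Finset.mem_insert_self _ _
      have h2 := Finset.card_le_card h1
      have h3 := Finset.card_insert_le none (U.image some)
      have h4 : (U.image some).card ≤ U.card := Finset.card_image_le
      omega
    have hfR : ∀ y, f y ∈ R := fun y => Finset.mem_image_of_mem _ (Finset.mem_univ y)
    set π : Fin r → Fin R.card := fun y => R.equivFin ⟨f y, hfR y⟩ with hπ
    have hsec : ∀ k : Fin R.card, ∃ y, π y = k := by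
      intro k
      obtain ⟨y, _, hy⟩ := Finset.mem_image.1
        (show ((R.equivFin.symm k : R) : Option (Fin r)) ∈ univ.image f from (R.equivFin.symm k).2)
      refine ⟨y, ?_⟩
      simp only [hπ]
      rw [← Equiv.eq_symm_apply]
      exact Subtype.ext hy
    choose sec hsec using hsec
    have hπf : ∀ y y', π y = π y' → y ≠ y' → y ∉ U := by
      intro y y' h hne' hy
      have h1 : f y = f y' := by
        have := R.equivFin.injective h
        simpa using this
      simp only [hf, if_pos hy] at h1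
      split_ifs at h1 with h2
      exact hne' (by simpa using h1)
    refine ⟨R.card, by omega, redA ht hlc hΓ hdeg hφ hpos hsec ?_ hz hz2 ?_ hzx⟩
    · intro y y' h hne' i hi
      have h1 := hπf y y' h hne'
      have h2 : y ∉ W := fun h3 => h1 (Finset.mem_union_left _ h3)
      have h3 : ¬ 2 ≤ t.v i (Sum.inr y) := fun h4 => h2 (by
        rw [hW, Finset.mem_filter]; exact ⟨Finset.mem_univ _, i, h4⟩)
      have h4 := hlc.col_pos hi
      omega
    · intro y y' h hne'
      have h1 := hπf y y' h hne'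
      by_contra hcon
      exact h1 (Finset.mem_union_right _ ((hIm y).2 hcon))

theorem main (d m : ℕ) (Γ : Set ℝ) (hΓ : ∀ x ∈ Γ, 0 ≤ x)
    (hdcc : ¬ ∃ f : ℕ → ℝ, StrictAnti f ∧ ∀ k, f k ∈ Γ) (n c r : ℕ → ℕ)
    (hd : ∀ k, n k + c k = d) (t : ∀ k, Data (Fin (n k) ⊕ Fin (r k)) m)
    (ht : ∀ k, HasCoeff (c k) Γ (t k)) :
    ∃ k, ∀ a : ℝ, 0 ≤ a → ∀ s : Fin m → ℝ, (∀ l, k < l → s ∈ thresholds (c l) a (t l)) →
      s ∈ thresholds (c k) a (t k) := by
  classical
  by_contra hcon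
  push Not at hcon
  choose a ha s hs hsk using hcon
  have hT : ∀ k, ∃ N < d + 1, ∃ Q < 3 * d + 4, ∃ t'' : Data (Fin N ⊕ Fin Q) m,
      CoefC (insert 1 Γ) (((d - N : ℕ) : ℝ) + 1) t'' ∧
      (∀ a' : ℝ, 0 ≤ a' → ∀ x ∈ thresholds (c (k + 1)) a' (t (k + 1)), x ∈ thr a' t'') ∧
      s (k + 1) ∉ thr (a (k + 1)) t'' := by
    intro k
    obtain ⟨q, hq, t', h1, h2, h3⟩ := reduction (ht (k + 1)) hΓ (ha k) (hs k (k + 1) (Nat.lt_succ_self k))
      (hs (k + 1) (k + 2) (Nat.lt_succ_self _)).1 (hsk (k + 1))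
    have hk := hd (k + 1)
    refine ⟨n (k + 1), by omega, q, by omega, t', ?_, h2, h3⟩
    have : d - n (k + 1) = c (k + 1) := by omega
    rw [this]
    exact h1
  choose N hN Q hQ hT' using hT
  obtain ⟨y, hy⟩ := Finite.exists_infinite_fiber
    (fun k => ((⟨N k, hN k⟩ : Fin (d + 1)), (⟨Q k, hQ k⟩ : Fin (3 * d + 4))))
  have hy' : {k | N k = (y.1 : ℕ) ∧ Q k = (y.2 : ℕ)}.Infinite := by
    have h1 := Set.infinite_coe_iff.1 hy
    refine h1.mono ?_
    intro k hk
    exact ⟨congrArg (fun z => ((z.1 : Fin (d + 1)) : ℕ)) hk,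
      congrArg (fun z => ((z.2 : Fin (3 * d + 4)) : ℕ)) hk⟩
  obtain ⟨ψ, hψ, hψy⟩ := Filter.extraction_of_frequently_atTop
    (Nat.frequently_atTop_iff_infinite.2 hy')
  have hT2 : ∀ k, ∃ t'' : Data (Fin (y.1 : ℕ) ⊕ Fin (y.2 : ℕ)) m,
      CoefC (insert 1 Γ) (((d - (y.1 : ℕ) : ℕ) : ℝ) + 1) t'' ∧
      (∀ a' : ℝ, 0 ≤ a' → ∀ x ∈ thresholds (c (ψ k + 1)) a' (t (ψ k + 1)), x ∈ thr a' t'') ∧
      s (ψ k + 1) ∉ thr (a (ψ k + 1)) t'' := by
    intro k
    have h1 := hT' (ψ k)
    rw [(hψy k).1, (hψy k).2] at h1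
    exact h1
  choose t'' h1 h2 h3 using hT2
  have hΓ' : ∀ x ∈ insert 1 Γ, (0 : ℝ) ≤ x := by
    intro x hx
    rcases Set.mem_insert_iff.1 hx with rfl | hx
    · exact zero_le_one
    · exact hΓ x hx
  have hdcc' : ¬ ∃ f : ℕ → ℝ, StrictAnti f ∧ ∀ k, f k ∈ insert 1 Γ := by
    have hWF : Γ.IsPWO := by
      rw [Set.isPWO_iff_isWF, Set.isWF_iff_no_descending_seq]
      intro f hf hmem
      exact hdcc ⟨f, hf, hmem⟩
    have h2 := (hWF.insert 1).isWF
    rw [Set.isWF_iff_no_descending_seq] at h2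
    rintro ⟨f, hf, hmem⟩
    exact h2 f hf hmem
  obtain ⟨k, hk⟩ := toricE hΓ' (C := ((d - (y.1 : ℕ) : ℕ) : ℝ) + 1) (by positivity) hdcc' t'' h1
  refine h3 k (hk _ (ha _) _ fun l hl => h2 l _ (ha _) _ ?_)
  exact hs _ _ (by have := hψ hl; omega)

end Pool.Agent.helper20.TAU
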