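import Pool.Agent.helper20.TAU.Toric
import Pool.Agent.helper20.TAT.RedA

/-!
# Reduction to toric data of bounded dimension, for all `a` at once
-/

noncomputable section

namespace Pool.Agent.helper20.TAU

open Finset Pool.Agent.helper22.ARR Pool.Agent.helper20.TAT

variable {ι' : Type} [Fintype ι'] {m : ℕ}
variable {n r q c : ℕ} {Γ : Set ℝ} {t : Data (Fin n ⊕ Fin r) m}

theorem red_abstract {κ : Type} [Fintype κ] {Γ' : Set ℝ} {C a : ℝ}
    (t₀ : Data (Fin n ⊕ Fin r) m) (A : Fin n ⊕ Fin r → ι' → ℤ) (g : κ → ι' → ℤ)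
    (P : ℝ → Set (Fin m → ℝ)) (hP0 : ∀ a', ∀ s ∈ P a', ∀ j, 0 ≤ s j)
    (H1 : ∀ i, C - logDisc t₀.toGenPair (lin A (toReal (g i))) ∈ AddSubmonoid.closure Γ')
    (H1' : ∀ j i, order t₀ j (lin A (toReal (g i))) ∈ AddSubmonoid.closure Γ')
    (H2 : ∀ a ∈ t₀.parts, a.1 ∈ Γ' ∧ a.2.Nonempty)
    (H2' : ∀ j, ∀ a ∈ t₀.dparts j, a.1 ∈ Γ' ∧ a.2.Nonempty)
    (H3 : ∀ i, lin A (toReal (g i)) ∈ coneOf (ext t.toGenPair))
    (H4 : ∀ j : Fin t.p, ∃ i : κ, ∃ δ > 0,
      lin A (toReal (g i)) - (δ : ℝ) • toReal (t.v j) ∈ coneOf (ext t.toGenPair))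
    (H5 : ∀ z : ι' → ℤ, toReal z ∈ coneOf g → lin A (toReal z) ∈ rint (ext t.toGenPair) →
      ∀ a' : ℝ, 0 ≤ a' → ∀ s ∈ P a', a' ≤ logDisc t₀.toGenPair (lin A (toReal z)) -
        ∑ j, s j * order t₀ j (lin A (toReal z)))
    (z₀ : ι' → ℤ) (H6 : toReal z₀ ∈ rint g) (s₀ : Fin m → ℝ)
    (H7 : logDisc t₀.toGenPair (lin A (toReal z₀)) -
      ∑ j, s₀ j * order t₀ j (lin A (toReal z₀)) < a) :
    ∃ t' : Data ι' m, CoefC Γ' C t' ∧ (∀ a' : ℝ, 0 ≤ a' → ∀ s ∈ P a', s ∈ thr a' t') ∧
      s₀ ∉ thr a t' := by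
  classical
  set e := (Fintype.equivFin κ).symm with he
  set t' := pullD A t₀ (Fintype.card κ) (fun i => g (e i)) with ht'
  have hv : t'.v = fun i => g (e i) := rfl
  have hrint : rint t'.v = rint g := rint_equiv e g
  have hlog : ∀ x, logDisc t'.toGenPair x = logDisc t₀.toGenPair (lin A x) :=
    fun x => logDisc_pull _ _ _ _ _
  have hord : ∀ j x, order t' j x = order t₀ j (lin A x) := fun j x => order_pull _ _ _ _ _ _
  have hmap : ∀ x ∈ coneOf g, lin A x ∈ coneOf (ext t.toGenPair) := by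
    rintro x ⟨μ, hμ, h⟩
    have : x = ∑ i, μ i • toReal (g i) := by
      funext j
      rw [h j]
      simp only [Finset.sum_apply, Pi.smul_apply, smul_eq_mul, toReal]
    rw [this, lin_sum]
    refine coneOf_sum _ _ _ fun i _ => ?_
    rw [lin_smul]
    exact coneOf_smul _ (H3 i) (hμ i)
  have hmapr : ∀ x ∈ rint g, lin A x ∈ rint (ext t.toGenPair) := by
    intro x hx
    refine rint_ext (hmap x hx.1) fun j => ?_
    obtain ⟨i, δ, hδ, hi⟩ := H4 j
    obtain ⟨ε, hε, hx2⟩ := hx.2 i
    refine ⟨ε * δ, mul_pos hε hδ, ?_⟩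
    have h1 := hmap _ hx2
    rw [lin_sub, lin_smul] at h1
    have : lin A x - (ε * δ) • toReal (t.v j) = (lin A x - ε • lin A (toReal (g i))) +
        ε • (lin A (toReal (g i)) - δ • toReal (t.v j)) := by
      rw [smul_sub, smul_smul]; abel
    rw [this]
    exact coneOf_add _ h1 (coneOf_smul _ hi hε.le)
  refine ⟨t', ⟨?_, ?_, ?_, ?_⟩, ?_, ?_⟩
  · intro i
    rw [hlog]
    exact H1 (e i)
  · intro x hx
    obtain ⟨b, hb, rfl⟩ := List.mem_map.1 hx
    exact ⟨(H2 b hb).1, (H2 b hb).2.image _⟩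
  · intro j i
    rw [hord]
    exact H1' j (e i)
  · intro j x hx
    obtain ⟨b, hb, rfl⟩ := List.mem_map.1 hx
    exact ⟨(H2' j b hb).1, (H2' j b hb).2.image _⟩
  · intro a' ha' s hs
    refine ⟨hP0 a' s hs, fun z hz => ?_⟩
    rw [hrint] at hz
    rw [hlog]
    simp only [hord]
    exact H5 z hz.1 (hmapr _ hz) a' ha' s hs
  · intro hcon
    have h1 := hcon.2 z₀ (by rw [hrint]; exact H6)
    rw [hlog] at h1
    simp only [hord] at h1
    linarith

theorem redB (ht : HasCoeff c Γ t) (hlc : IsLC c Γ t.toGenPair) {a : ℝ}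
    (hB : ∀ φ, Sel t.toGenPair φ → logDisc t.toGenPair (toReal (X0 t.toGenPair φ)) = 0)
    {e : Fin q → Fin r} (he : Function.Injective e) (hq : q ≤ c) {z₀ : Fin n ⊕ Fin r → ℤ}
    (hz : Trop c z₀) (hz2 : toReal z₀ ∈ interior (bigCone t.toGenPair))
    (hz3 : ∀ y, y ∉ Set.range e → z₀ (Sum.inr y) = 0)
    (hz4 : ∀ k, z₀ (Sum.inr (e k)) ≠ 0) {s₀ : Fin m → ℝ}
    (hs₀ : logDisc t.toGenPair (toReal z₀) - ∑ j, s₀ j * order t j (toReal z₀) < a) :
    ∃ t' : Data (Fin n ⊕ Fin q) m, CoefC (insert 1 Γ) ((c : ℝ) + 1) t' ∧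
      (∀ a' : ℝ, 0 ≤ a' → ∀ s ∈ thresholds c a' t, s ∈ thr a' t') ∧ s₀ ∉ thr a t' := by
  classical
  set z₁ : Fin n ⊕ Fin q → ℤ := fun j => z₀ (Sum.map id e j) with hz₁
  have hz0 : lin (BB n e) (toReal z₁) = toReal z₀ := by
    funext j
    rcases j with a | y
    · rw [BB_inl]; simp [toReal, hz₁]
    · by_cases hy : y ∈ Set.range e
      · obtain ⟨k, rfl⟩ := hy
        rw [BB_inr he]; simp [toReal, hz₁]
      · rw [BB_not _ hy]
        simp [toReal, hz3 y hy]
  rw [bigCone_eq] at hz2
  have hz2r := rint_of_interior _ hz2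
  have hH3 : ∀ i : IxB t.toGenPair e, lin (BB n e) (toReal (gB t.toGenPair e i)) ∈
      coneOf (ext t.toGenPair) := by
    rintro (i | φ)
    · rw [linB_inl he]; exact ext_gen _
    · rw [linB_inr hlc he]; exact X0_mem hlc φ.2
  refine red_abstract t (BB n e) (gB t.toGenPair e) (fun a' => thresholds c a' t)
    (fun _ s hs => hs.1) ?_ ?_ ?_ ?_ hH3 ?_ ?_ z₁ ?_ s₀ ?_
  · rintro (i | φ)
    · rw [linB_inl he]
      have h1 : ((c : ℝ) + 1) - logDisc t.toGenPair (toReal (t.v i.1)) =
          c + (1 - logDisc t.toGenPair (toReal (t.v i.1))) := by ring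
      rw [h1]
      exact AddSubmonoid.add_mem _ (nat_mem Γ c) (clos_mono (ht.boundary _))
    · rw [linB_inr hlc he, hB _ φ.2, sub_zero]
      have := nat_mem Γ (c + 1)
      push_cast at this
      exact this
  · intro j
    rintro (i | φ)
    · rw [linB_inl he]
      exact clos_mono (ht.divisors j i.1)
    · rw [linB_inr hlc he, toReal_X0, order_diag ht]
      obtain ⟨x, hx, h⟩ := order_defect (t := t) (j := j)
        (fun a ha => ⟨(ht.dparts j a ha).1, (ht.dparts j a ha).2.1⟩) univ
        (fun y => Ny t.toGenPair φ.1 y • t.v (φ.1 y))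
      rw [XX, h]
      refine AddSubmonoid.add_mem _ (AddSubmonoid.sum_mem _ fun y _ => ?_) (clos_mono hx)
      have h0 := (Ny_pos hlc φ.2 y).le
      obtain ⟨k, hk⟩ := Int.eq_ofNat_of_zero_le h0
      rw [hk, toReal_zsmul, order_smul _ _ (by positivity)]
      have := AddSubmonoid.nsmul_mem (AddSubmonoid.closure (insert 1 Γ))
        (clos_mono (ht.divisors j (φ.1 y))) k
      rw [nsmul_eq_mul] at this
      exact_mod_cast this
  · intro a ha
    exact ⟨Set.mem_insert_of_mem _ (ht.parts a ha).1, (ht.parts a ha).2.1⟩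
  · intro j a ha
    exact ⟨Set.mem_insert_of_mem _ (ht.dparts j a ha).1, (ht.dparts j a ha).2.1⟩
  · intro j
    by_cases hj : ∀ y, y ∉ Set.range e → t.v j (Sum.inr y) = 0
    · refine ⟨Sum.inl ⟨j, hj⟩, 1, one_pos, ?_⟩
      rw [linB_inl he, one_smul, sub_self]
      exact coneOf_zero _
    · push Not at hj
      obtain ⟨y, _, hy⟩ := hj
      obtain ⟨φ₀, hφ₀⟩ := hlc.exists_sel
      have hφ : Sel t.toGenPair (Function.update φ₀ y j) := by
        intro y'
        by_cases h : y' = y
        · subst h; rw [Function.update_self]; exact hy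
        · rw [Function.update_of_ne h]; exact hφ₀ y'
      refine ⟨Sum.inr ⟨_, hφ⟩, (Ny t.toGenPair (Function.update φ₀ y j) y : ℝ),
        by exact_mod_cast Ny_pos hlc hφ y, ?_⟩
      rw [linB_inr hlc he]
      simp only
      rw [toReal_X0, XX, toReal_sum]
      have h1 := Finset.add_sum_erase univ
        (fun y' => toReal (Ny t.toGenPair (Function.update φ₀ y j) y' •
          t.v (Function.update φ₀ y j y'))) (Finset.mem_univ y)
      rw [← h1]
      simp only [toReal_zsmul, Function.update_self]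
      have h2 : ∀ u v w : Fin n ⊕ Fin r → ℝ, u + v + w - u = v + w := by intros; abel
      rw [h2]
      refine coneOf_add _ (coneOf_sum _ _ _ fun y' _ => ?_) (ext_diag _)
      exact coneOf_smul _ (ext_gen _) (by exact_mod_cast (Ny_pos hlc hφ y').le)
  · intro z hzc hzr a' _ s hs
    rw [lin_toReal] at hzr ⊢
    apply hs.2 (linZ (BB n e) z)
    · have hnn : ∀ k, 0 ≤ z (Sum.inr k) := by
        intro k
        obtain ⟨μ, hμ, h⟩ := hzc
        have h1 := h (Sum.inr k)
        have h2 : (0 : ℝ) ≤ toReal z (Sum.inr k) := by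
          rw [h1]
          refine Finset.sum_nonneg fun i _ => mul_nonneg (hμ i) ?_
          exact_mod_cast gB_nonneg hlc i k
        simp only [toReal] at h2
        exact_mod_cast h2
      have hin : ∀ k, linZ (BB n e) z (Sum.inr (e k)) = z (Sum.inr k) := by
        intro k
        have := BB_inr (n := n) he (toReal z) k
        rw [lin_toReal] at this
        simp only [toReal] at this
        exact_mod_cast this
      have hout : ∀ y, y ∉ Set.range e → linZ (BB n e) z (Sum.inr y) = 0 := by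
        intro y hy
        have := BB_not (n := n) (toReal z) hy
        rw [lin_toReal] at this
        simp only [toReal] at this
        exact_mod_cast this
      refine ⟨fun y => ?_, ?_⟩
      · by_cases hy : y ∈ Set.range e
        · obtain ⟨k, rfl⟩ := hy
          rw [hin]; exact hnn k
        · rw [hout y hy]
      · have hsub : (univ.filter fun y => linZ (BB n e) z (Sum.inr y) ≠ 0) ⊆ univ.image e := by
          intro y hy
          rw [Finset.mem_filter] at hy
          by_contra hcon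
          apply hy.2
          apply hout
          rintro ⟨k, rfl⟩
          exact hcon (Finset.mem_image_of_mem _ (Finset.mem_univ k))
        refine (Finset.card_le_card hsub).trans (Finset.card_image_le.trans ?_)
        simpa using hq
    · have hfull := ht.full
      rw [bigCone_eq] at hfull ⊢
      exact interior_of_rint _ hfull hzr
  · have hpos : ∀ k, (1 : ℝ) ≤ toReal z₁ (Sum.inr k) := by
      intro k
      have h1 : 0 < z₀ (Sum.inr (e k)) := lt_of_le_of_ne (hz.1 _) (Ne.symm (hz4 k))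
      simp only [toReal, hz₁, Sum.map_inr]
      exact_mod_cast h1
    refine ⟨?_, fun i => ?_⟩
    · apply coneB hlc he hq (fun k => by linarith [hpos k])
      rw [hz0]; exact hz2r.1
    · obtain ⟨ε, hε, h⟩ := rint_sub _ hz2r (hH3 i)
      obtain ⟨δ, hδ, hδ2⟩ : ∃ δ : ℝ, 0 < δ ∧
          ∀ k, δ * toReal (gB t.toGenPair e i) (Sum.inr k) ≤ 1 := by
        set M : ℝ := 1 + ∑ k, toReal (gB t.toGenPair e i) (Sum.inr k) with hM
        have hnn : ∀ k, 0 ≤ toReal (gB t.toGenPair e i) (Sum.inr k) := by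
          intro k
          simp only [toReal]
          exact_mod_cast gB_nonneg hlc i k
        have hMp : 0 < M := by
          have : 0 ≤ ∑ k, toReal (gB t.toGenPair e i) (Sum.inr k) :=
            Finset.sum_nonneg fun k _ => hnn k
          linarith
        refine ⟨M⁻¹, inv_pos.2 hMp, fun k => ?_⟩
        have h1 : toReal (gB t.toGenPair e i) (Sum.inr k) ≤
            ∑ k, toReal (gB t.toGenPair e i) (Sum.inr k) :=
          Finset.single_le_sum (f := fun k => toReal (gB t.toGenPair e i) (Sum.inr k))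
            (fun k _ => hnn k) (Finset.mem_univ k)
        rw [inv_mul_le_iff₀ hMp]
        linarith
      refine ⟨min ε δ, lt_min hε hδ, ?_⟩
      apply coneB hlc he hq
      · intro k
        simp only [Pi.sub_apply, Pi.smul_apply, smul_eq_mul]
        have hnn : 0 ≤ toReal (gB t.toGenPair e i) (Sum.inr k) := by
          simp only [toReal]
          exact_mod_cast gB_nonneg hlc i k
        have h1 : min ε δ * toReal (gB t.toGenPair e i) (Sum.inr k) ≤
            δ * toReal (gB t.toGenPair e i) (Sum.inr k) :=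
          mul_le_mul_of_nonneg_right (min_le_right _ _) hnn
        linarith [hpos k, hδ2 k]
      · rw [lin_sub, lin_smul, hz0]
        have h1 : toReal z₀ - min ε δ • lin (BB n e) (toReal (gB t.toGenPair e i)) =
            (toReal z₀ - ε • lin (BB n e) (toReal (gB t.toGenPair e i))) +
            (ε - min ε δ) • lin (BB n e) (toReal (gB t.toGenPair e i)) := by
          rw [sub_smul]; abel
        rw [h1]
        exact coneOf_add _ h (coneOf_smul _ (hH3 i) (by linarith [min_le_left ε δ]))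
  · rw [hz0]; exact hs₀

end Pool.Agent.helper20.TAU
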