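import Pool.Agent.helper20.TAU.Red

/-!
# Reduction to toric data for all `a` at once: the first case
-/

noncomputable section

namespace Pool.Agent.helper20.TAU

open Finset Pool.Agent.helper22.ARR Pool.Agent.helper20.TAT

variable {m : ℕ}
variable {n r q c : ℕ} {Γ : Set ℝ} {t : Data (Fin n ⊕ Fin r) m}

variable {π : Fin r → Fin q} {sec : Fin q → Fin r}

theorem redA (ht : HasCoeff c Γ t) (hlc : IsLC c Γ t.toGenPair) (hΓ : ∀ x ∈ Γ, 0 ≤ x) {a : ℝ}
    (hdeg : ∑ y, (1 - t.psi (Sum.inr y)) = c + 1) {φ₀ : Fin r → Fin t.p}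
    (hφ₀ : Sel t.toGenPair φ₀) (hpos : 0 < logDisc t.toGenPair (toReal (X0 t.toGenPair φ₀)))
    (hsec : ∀ k, π (sec k) = k) (hm : Mult t.toGenPair π) {z₀ : Fin n ⊕ Fin r → ℤ}
    (hz : Trop c z₀) (hz2 : toReal z₀ ∈ interior (bigCone t.toGenPair))
    (hz3 : ∀ y y', π y = π y' → y ≠ y' → z₀ (Sum.inr y) = 0) {s₀ : Fin m → ℝ}
    (hs₀ : logDisc t.toGenPair (toReal z₀) - ∑ j, s₀ j * order t j (toReal z₀) < a) :
    ∃ t' : Data (Fin n ⊕ Fin q) m, CoefC (insert 1 Γ) ((c : ℝ) + 1) t' ∧
      (∀ a' : ℝ, 0 ≤ a' → ∀ s ∈ thresholds c a' t, s ∈ thr a' t') ∧ s₀ ∉ thr a t' := by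
  classical
  have hz0 : lin (AA n π) (toReal (Sum.elim (fun a => z₀ (Sum.inl a))
      (fun k => z₀ (Sum.inr (sec k))))) = toReal z₀ := by
    funext j
    rcases j with a | y
    · rw [AA_inl]; simp [toReal]
    · rw [AA_inr]
      simp only [toReal, Sum.elim_inr]
      by_cases h : sec (π y) = y
      · rw [h]
      · have h1 := hz3 (sec (π y)) y (hsec _) h
        have h2 := hz3 y (sec (π y)) (hsec _).symm (Ne.symm h)
        rw [h1, h2]
  rw [bigCone_eq] at hz2
  have hz2r := rint_of_interior _ hz2
  have hordb : ∀ j x, order (bigD c t) j x = order t j x := fun j x => rfl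
  refine red_abstract (t := t) (bigD c t) (AA n π) (gA t.toGenPair π sec)
    (fun a' => thresholds c a' t) (fun _ s hs => hs.1) ?_ ?_ ?_ ?_ ?_ ?_ ?_
    (Sum.elim (fun a => z₀ (Sum.inl a)) (fun k => z₀ (Sum.inr (sec k)))) ?_ s₀ ?_
  · rintro (i | ⟨k, φ⟩ | b)
    · rw [lin_hor]
      change ((c : ℝ) + 1) - logDisc (big c t.toGenPair) (toReal (t.v i.1)) ∈ _
      rw [big_trop ht.size (hor_trop i.2)]
      have h1 : ((c : ℝ) + 1) - logDisc t.toGenPair (toReal (t.v i.1)) =
          c + (1 - logDisc t.toGenPair (toReal (t.v i.1))) := by ring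
      rw [h1]
      exact AddSubmonoid.add_mem _ (nat_mem Γ c) (clos_mono (ht.boundary _))
    · rw [lin_sel hlc hsec hm]
      exact valA hlc φ _
    · rw [lin_bool]
      have h1 := hlc.bigDiag hdeg 0 (if b then (1 : ℝ) else -1)
      rw [zero_add, logDisc_zero] at h1
      change ((c : ℝ) + 1) - logDisc (big c t.toGenPair) _ ∈ _
      rw [h1, sub_zero]
      have := nat_mem Γ (c + 1)
      push_cast at this
      exact this
  · intro j
    rintro (i | ⟨k, φ⟩ | b)
    · rw [lin_hor, hordb]
      exact clos_mono (ht.divisors j i.1)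
    · rw [lin_sel hlc hsec hm, hordb, ← toReal_sum]
      obtain ⟨x, hx, h⟩ := order_defect (t := t) (j := j)
        (fun a ha => ⟨(ht.dparts j a ha).1, (ht.dparts j a ha).2.1⟩)
        (univ.filter (fun y => π y = k)) (fun y => t.v (φ.1 y))
      rw [h]
      exact AddSubmonoid.add_mem _ (AddSubmonoid.sum_mem _ fun y _ =>
        clos_mono (ht.divisors j (φ.1 y))) (clos_mono hx)
    · rw [lin_bool, hordb]
      have h1 := order_diag ht j 0 (if b then (1 : ℝ) else -1)
      rw [zero_add, order_zero] at h1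
      rw [h1]
      exact AddSubmonoid.zero_mem _
  · intro a ha
    rcases List.mem_cons.1 ha with rfl | ha
    · exact ⟨Set.mem_insert _ _, top_nonempty ht.size⟩
    · exact ⟨Set.mem_insert_of_mem _ (ht.parts a ha).1, (ht.parts a ha).2.1⟩
  · intro j a ha
    exact ⟨Set.mem_insert_of_mem _ (ht.dparts j a ha).1, (ht.dparts j a ha).2.1⟩
  · rintro (i | ⟨k, φ⟩ | b)
    · rw [lin_hor]; exact ext_gen _
    · rw [lin_sel hlc hsec hm]
      exact coneOf_sum _ _ _ fun y _ => ext_gen _
    · rw [lin_bool]; exact ext_diag _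
  · intro j
    by_cases hj : j ∈ hor t.toGenPair
    · refine ⟨Sum.inl ⟨j, hj⟩, 1, one_pos, ?_⟩
      rw [lin_hor, one_smul, sub_self]
      exact coneOf_zero _
    · rw [mem_hor] at hj
      push Not at hj
      obtain ⟨y, hy⟩ := hj
      have hφ : Sel t.toGenPair (Function.update φ₀ y j) := by
        intro y'
        by_cases h : y' = y
        · subst h; rw [Function.update_self]; exact hy
        · rw [Function.update_of_ne h]; exact hφ₀ y'
      refine ⟨Sum.inr (Sum.inl (π y, ⟨_, hφ⟩)), 1, one_pos, ?_⟩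
      rw [lin_sel hlc hsec hm, one_smul]
      have h1 := Finset.add_sum_erase (univ.filter (fun y' => π y' = π y))
        (fun y' => toReal (t.v (Function.update φ₀ y j y'))) (a := y) (by simp)
      rw [← h1, Function.update_self, add_sub_cancel_left]
      exact coneOf_sum _ _ _ fun y _ => ext_gen _
  · intro z _ hzr a' ha' s hs
    rw [lin_toReal] at hzr ⊢
    set Z := linZ (AA n π) z with hZ
    have hZc : toReal Z ∈ bigCone t.toGenPair := by rw [bigCone_eq]; exact hzr.1
    have hS0 : 0 ≤ ∑ j, s j * order t j (toReal Z) :=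
      Finset.sum_nonneg fun j _ => mul_nonneg (hs.1 j) (order_nonneg ht hΓ j hZc)
    simp only [hordb]
    change a' ≤ logDisc (big c t.toGenPair) (toReal Z) - _
    -- perturbation
    have key : ∀ θ : ℝ, 0 ≤ θ → θ < 1 →
        a' ≤ logDisc (big c t.toGenPair) (toReal Z) - θ * ∑ j, s j * order t j (toReal Z) := by
      intro θ hθ0 hθ1
      have hL := isLC_comb ht hΓ ha' hs hθ0 hθ1.le
      have hX := lc_of ht hΓ ha' hs (X0_trop hlc hφ₀)
        (by rw [bigCone_eq]; exact X0_mem hlc hφ₀)
      rw [logDisc_comb] at hX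
      have hpos' : 0 < logDisc (comb t (fun j => θ * s j))
          (toReal (X0 (comb t (fun j => θ * s j)) φ₀)) := by
        change 0 < logDisc (comb t (fun j => θ * s j)) (toReal (X0 t.toGenPair φ₀))
        rw [logDisc_comb]
        have h1 : ∑ j, θ * s j * order t j (toReal (X0 t.toGenPair φ₀)) =
            θ * ∑ j, s j * order t j (toReal (X0 t.toGenPair φ₀)) := by
          rw [Finset.mul_sum]
          exact Finset.sum_congr rfl fun j _ => by ring
        rw [h1]
        nlinarith
      have hdeg' : ∑ y, (1 - (comb t (fun j => θ * s j)).psi (Sum.inr y)) = c + 1 := by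
        have h1 : ∑ y, (1 - (comb t (fun j => θ * s j)).psi (Sum.inr y)) =
            ∑ y, (1 - t.psi (Sum.inr y)) := by
          simp only [comb]
          have h2 : ∑ y, ∑ j, θ * s j * t.phi j (Sum.inr y) = 0 := by
            rw [Finset.sum_comm]
            refine Finset.sum_eq_zero fun j _ => ?_
            rw [← Finset.mul_sum, ht.degrees j, mul_zero]
          have h3 : ∀ y, 1 - (t.psi (Sum.inr y) - ∑ j, θ * s j * t.phi j (Sum.inr y)) =
              (1 - t.psi (Sum.inr y)) + ∑ j, θ * s j * t.phi j (Sum.inr y) := fun y => by ring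
          simp only [h3, Finset.sum_add_distrib, h2, add_zero]
        rw [h1]
        exact hdeg
      obtain ⟨k, u, h1, h2⟩ := pia (t := comb t (fun j => θ * s j)) hL (fun x hx => hx) hdeg'
        (φ := φ₀) hφ₀ hpos' Z
      set Z' : Fin n ⊕ Fin r → ℤ := addM t.toGenPair φ₀ Z (fun y => (k y : ℤ)) - u • diag n r
        with hZ'
      change Trop c Z' at h1
      change logDisc (comb t (fun j => θ * s j)) (toReal Z') ≤ _ at h2
      have e : toReal Z' = toReal Z +
          (∑ y, (k y : ℝ) • toReal (t.v (φ₀ y)) + (-(u : ℝ)) • toReal (diag n r)) := by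
        rw [hZ', toReal_sub, toReal_zsmul, addM, toReal_add, toReal_sum]
        simp only [toReal_zsmul, Int.cast_natCast]
        rw [neg_smul]; abel
      have hint : toReal Z' ∈ interior (bigCone t.toGenPair) := by
        have hfull := ht.full
        rw [bigCone_eq] at hfull ⊢
        apply interior_of_rint _ hfull
        rw [e]
        exact rint_add _ hzr (coneOf_add _ (coneOf_sum _ _ _ fun y _ =>
          coneOf_smul _ (ext_gen _) (Nat.cast_nonneg _)) (ext_diag _))
      have h3 := hs.2 Z' h1 hint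
      have h4 : 0 ≤ ∑ j, s j * order t j (toReal Z') :=
        Finset.sum_nonneg fun j _ => mul_nonneg (hs.1 j)
          (order_nonneg ht hΓ j (interior_subset hint))
      rw [logDisc_comb, logDisc_big, logDisc_comb] at h2
      rw [logDisc_big]
      have h5 : ∀ x, ∑ j, θ * s j * order t j x = θ * ∑ j, s j * order t j x := by
        intro x
        rw [Finset.mul_sum]
        exact Finset.sum_congr rfl fun j _ => by ring
      rw [h5, h5] at h2
      nlinarith
    refine le_of_forall_pos_le_add fun ε hε => ?_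
    set S := ∑ j, s j * order t j (toReal Z) with hS
    have h1 := key (1 - min 1 (ε / (S + 1))) (by linarith [min_le_left (1 : ℝ) (ε / (S + 1))])
      (by
        have : 0 < min 1 (ε / (S + 1)) := lt_min one_pos (div_pos hε (by linarith))
        linarith)
    have h2 : min 1 (ε / (S + 1)) * S ≤ ε := by
      calc min 1 (ε / (S + 1)) * S ≤ ε / (S + 1) * S :=
            mul_le_mul_of_nonneg_right (min_le_right _ _) hS0
        _ ≤ ε / (S + 1) * (S + 1) := by
            apply mul_le_mul_of_nonneg_left (by linarith)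
            exact (div_pos hε (by linarith)).le
        _ = ε := by
            have : S + 1 ≠ 0 := by linarith
            field_simp
    linarith
  · refine ⟨?_, fun i => ?_⟩
    · apply coneA hlc hsec hm
      rw [hz0]; exact hz2r.1
    · have h3 : lin (AA n π) (toReal (gA t.toGenPair π sec i)) ∈ coneOf (ext t.toGenPair) := by
        rcases i with (i | ⟨k, φ⟩ | b)
        · rw [lin_hor]; exact ext_gen _
        · rw [lin_sel hlc hsec hm]
          exact coneOf_sum _ _ _ fun y _ => ext_gen _
        · rw [lin_bool]; exact ext_diag _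
      obtain ⟨ε, hε, h⟩ := rint_sub _ hz2r h3
      refine ⟨ε, hε, ?_⟩
      apply coneA hlc hsec hm
      rw [lin_sub, lin_smul, hz0]
      exact h
  · rw [hz0]
    simp only [hordb]
    change logDisc (big c t.toGenPair) (toReal z₀) - _ < a
    rw [big_trop ht.size hz]
    exact hs₀

end Pool.Agent.helper20.TAU
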